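import Pool.Agent.H87.CAL.MulAlg

/-!
# Project CAL, module MULC
-/

open scoped BigOperators
open Filter

namespace CAL

theorem mulc_dC {𝕜 : Type*} [RCLike 𝕜] {A : Type*} [PartialOrder A]
    [TopologicalSpace A] [CompactSpace A] (τ : TreeLev A) (hc : ∀ a : A, IsClopen {b | a ≤ b})
    (b c : A) : dC 𝕜 τ b (chi 𝕜 hc c) = (open Classical in if b = c then 1 else 0) := by
  classical
  have hchi : ∀ x : A, chi 𝕜 hc c x = if c ≤ x then 1 else 0 := by
    intro x
    show Set.indicator {b | c ≤ b} (fun _ => (1 : 𝕜)) x = _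
    rw [Set.indicator_apply]
    rfl
  unfold dC
  rcases hr : τ.ret (τ.lev b - 1) b with _ | b'
  · rw [Option.elim_none, sub_zero, ContinuousMap.evalCLM_apply, hchi]
    rw [τ.ret_eq_none] at hr
    by_cases hbc : b = c
    · rw [if_pos hbc, if_pos hbc.ge]
    · rw [if_neg hbc, if_neg]
      intro hcb
      have h1 := hr c hcb
      have h2 := τ.lev_lt c b (lt_of_le_of_ne hcb (fun h => hbc h.symm))
      omega
  · rw [Option.elim_some, ContinuousLinearMap.sub_apply, ContinuousMap.evalCLM_apply,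
      ContinuousMap.evalCLM_apply, hchi, hchi]
    rw [τ.ret_eq_some] at hr
    obtain ⟨h1, h2, h3⟩ := hr
    have hpos := τ.lev_pos b
    by_cases hbc : b = c
    · rw [if_pos hbc, if_pos hbc.ge, if_neg, sub_zero]
      intro hcb'
      have := τ.lev_le hcb'
      rw [hbc] at h2 hpos
      omega
    · rw [if_neg hbc]
      by_cases hcb : c ≤ b
      · have h4 := τ.lev_lt c b (lt_of_le_of_ne hcb (fun h => hbc h.symm))
        rw [if_pos hcb, if_pos (h3 c hcb (by omega)), sub_self]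
      · rw [if_neg hcb, if_neg (fun h => hcb (h.trans h1)), sub_self]

theorem cal_mulc {𝕜 : Type*} [RCLike 𝕜] {A : Type*} [PartialOrder A]
    [TopologicalSpace A] [CompactSpace A] (τ : TreeLev A) (hc : ∀ a : A, IsClopen {b | a ≤ b}) :
    MULCStmt 𝕜 τ hc := by
  classical
  intro m m'
  refine mulalg_mul (R := C(A, 𝕜) →L[𝕜] C(A, 𝕜))
    (fun p => (dC 𝕜 τ p.2).smulRight (chi 𝕜 hc p.1)) ?_ m m'
  intro p q
  ext1 f
  show dC 𝕜 τ p.2 (dC 𝕜 τ q.2 f • chi 𝕜 hc q.1) • chi 𝕜 hc p.1 = _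
  rw [map_smul, mulc_dC τ hc p.2 q.1]
  by_cases hpq : p.2 = q.1
  · rw [if_pos hpq, if_pos hpq, smul_eq_mul, mul_one]
    rfl
  · rw [if_neg hpq, if_neg hpq, smul_zero, zero_smul]
    rfl

end CAL
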