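import Pool.Agent.H87.CAL.MulAlg

/-!
# Project CAL, module MULX
-/

open scoped BigOperators
open Filter

namespace CAL

theorem cal_mulx {𝕜 : Type*} [RCLike 𝕜] {A : Type*} [PartialOrder A] {Y : Type*}
    [NormedAddCommGroup Y] [NormedSpace 𝕜 Y] {τ : TreeLev A} (D : Dat 𝕜 Y τ)
    (h : BIOStmt D) : MULXStmt D := by
  classical
  intro m m'
  obtain ⟨-, h2, -⟩ := h
  refine mulalg_mul (R := D.X →L[𝕜] D.X) (fun p => (D.Jn p.1).comp (D.dn p.2)) ?_ m m'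
  intro p q
  ext1 x
  show D.Jn p.1 (D.dn p.2 (D.Jn q.1 (D.dn q.2 x))) = _
  rw [h2 q.1 p.2]
  by_cases hpq : p.2 = q.1
  · rw [if_pos hpq, if_pos hpq.symm]
    rfl
  · rw [if_neg hpq, if_neg (fun hh => hpq hh.symm), map_zero]
    rfl

end CAL
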