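import Pool.Agent.H27.CAL.Stmts2

/-!
# Project CAL: finitely supported matrices and matrix units
-/

open scoped BigOperators
open Filter

namespace CAL

/-- matrix units in an algebra give a multiplicative map on finitely supported matrices -/
theorem mulalg_mul {𝕜 : Type*} [RCLike 𝕜] {A : Type*} {R : Type*} [Ring R] [Algebra 𝕜 R]
    (T : A × A → R)
    (hT : ∀ p q : A × A, T p * T q = (open Classical in if p.2 = q.1 then T (p.1, q.2) else 0))
    (m m' : (A × A) →₀ 𝕜) :
    (m.sum fun p c => c • T p) * (m'.sum fun p c => c • T p) =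
      (mulM m m').sum fun p c => c • T p := by
  classical
  have h0 : ∀ p : A × A, (fun p (c : 𝕜) => c • T p) p 0 = 0 := fun p => zero_smul _ _
  have h1 : ∀ (p : A × A) (c d : 𝕜), (fun p (c : 𝕜) => c • T p) p (c + d) =
      (fun p (c : 𝕜) => c • T p) p c + (fun p (c : 𝕜) => c • T p) p d :=
    fun p c d => add_smul _ _ _
  unfold mulM
  rw [Finsupp.sum_sum_index h0 h1, Finsupp.sum_mul]
  refine Finsupp.sum_congr (fun p _ => ?_)
  rw [Finsupp.sum_sum_index h0 h1, Finsupp.mul_sum]
  refine Finsupp.sum_congr (fun q _ => ?_)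
  rw [smul_mul_smul_comm, hT]
  by_cases h : p.2 = q.1
  · rw [if_pos h, if_pos h, Finsupp.sum_single_index (h0 _)]
  · rw [if_neg h, if_neg h, smul_zero, Finsupp.sum_zero_index]

end CAL
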